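import Pool.Agent.H24.SCG2.Stmts1

/-!
Module E12: the exceptional cases with `b` inner, by an explicit base change to the group of `Q0`
over the prime field.
-/

namespace Pool.Agent.H70.SCG2

open Matrix Pool.SCG

section
variable {F : Type*} [Field F]

/-- the base change -/
def Pm (σ u : F) : Matrix (Fin 3) (Fin 3) F :=
  !![u, u, -u; u * σ ^ 2, u, -(u * σ); u * σ, u, -(u * σ ^ 2)]

theorem Pm_det {σ u : F} (hσ : σ ^ 2 + σ + 1 = 0) (hu : u * (σ ^ 2 - σ) = 1) :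
    (Pm σ u).det = 1 := by
  have h : (Pm σ u).det = u * u * (-(u * σ ^ 2)) - u * (-(u * σ)) * u -
      u * (u * σ ^ 2) * (-(u * σ ^ 2)) + u * (-(u * σ)) * (u * σ) + (-u) * (u * σ ^ 2) * u -
      (-u) * u * (u * σ) := by
    simp [Pm, Matrix.det_fin_three]
  rw [h]
  grind

theorem Pm_tr {σ u : F} (hσ : σ ^ 2 + σ + 1 = 0) (hu : u * (σ ^ 2 - σ) = 1) :
    (Pm σ u).transpose * dg 1 1 1 * Pm σ u = Q0 F := by
  ext i j
  fin_cases i <;> fin_cases j <;>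
    simp [Pm, dg, Q0, Matrix.mul_apply, Fin.sum_univ_three] <;> grind

/-- inner base change in multiplied form -/
theorem cj_inner_of {x : Cor F} {A B : M3 F} {P : SL3 F} (hx : Is x false A)
    (h : A * (P : M3 F) = (P : M3 F) * B) : Is (cj P x) false B := by
  have h1 := hx.cj_inner P
  have h2 : adjugate (P : M3 F) * A * (P : M3 F) = B := by
    rw [mul_assoc, h, ← mul_assoc, adj_mul_self P.2, one_mul]
  rwa [h2] at h1

theorem cj_outer_of {x : Cor F} {A B : M3 F} {P : SL3 F} (hx : Is x true A)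
    (h : (P : M3 F).transpose * A * (P : M3 F) = B) : Is (cj P x) true B := by
  have h1 := hx.cj_outer P
  rwa [h] at h1

/-- membership in the closure after base change -/
theorem mem_of_cj (P : SL3 F) (a b c d e : Cor F)
    (h : cj P e ∈ Subgroup.closure ({cj P a, cj P b, cj P c, cj P d} ∪ Zs F : Set (Cor F))) :
    e ∈ Subgroup.closure ({a, b, c, d} ∪ Zs F : Set (Cor F)) := by
  rw [← mem_map_cj (P := P)]
  refine (Subgroup.closure_le _).2 ?_ h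
  have key : ∀ x ∈ ({a, b, c, d} ∪ Zs F : Set (Cor F)), cj P x ∈
      ((Subgroup.closure ({a, b, c, d} ∪ Zs F : Set (Cor F))).map (cjE P).toMonoidHom) :=
    fun x hx => mem_map_cj.2 (Subgroup.subset_closure hx)
  rintro x (hx | hx)
  · rcases hx with rfl | rfl | rfl | rfl
    · exact key a (Or.inl (by simp))
    · exact key b (Or.inl (by simp))
    · exact key c (Or.inl (by simp))
    · exact key d (Or.inl (by simp))
  · have h1 : cj P x = x := by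
      obtain ⟨z, hz, hx⟩ := hx
      refine (cj_inner_of hx (B := dg z z z) ?_).ext hx
      ext i j
      fin_cases i <;> fin_cases j <;>
        simp [dg, Matrix.mul_apply, Fin.sum_univ_three, mul_comm]
    have h2 := key x (Or.inr hx)
    rwa [h1] at h2

/-- the matrix of the image in the orthogonal group, multiplied form -/
theorem PhM_of {A : M2 F} {Y : M3 F} (hd : A 0 0 * A 1 1 - A 0 1 * A 1 0 ≠ 0)
    (h : (A 0 0 * A 1 1 - A 0 1 * A 1 0) • Y =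
      !![A 0 0 ^ 2, A 0 0 * A 0 1, A 0 1 ^ 2 * 2⁻¹;
      2 * A 0 0 * A 1 0, A 0 0 * A 1 1 + A 0 1 * A 1 0, A 0 1 * A 1 1;
      2 * A 1 0 ^ 2, 2 * A 1 0 * A 1 1, A 1 1 ^ 2]) : PhM A = Y := by
  unfold PhM
  rw [← h, smul_smul, inv_mul_cancel₀ hd, one_smul]

/-- the image of `a` -/
theorem img_a {σ u : F} (h2 : (2 : F) ≠ 0) (h3 : (3 : F) ≠ 0) (hσ : σ ^ 2 + σ + 1 = 0)
    (hu : u * (σ ^ 2 - σ) = 1) :
    (Pm σ u).transpose * Q0 F * Pm σ u =
      Q0 F * PhM !![-2, -2 * σ; -σ ^ 2, 2] := by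
  have h6 : (6 : F) ≠ 0 := by
    have : (6 : F) = 2 * 3 := by norm_num
    rw [this]
    exact mul_ne_zero h2 h3
  have e1 : PhM !![(-2 : F), -2 * σ; -σ ^ 2, 2] =
      !![-2 * 3⁻¹, -(2 * 3⁻¹ * σ), -(3⁻¹ * σ ^ 2); -(2 * 3⁻¹ * σ ^ 2), 3⁻¹, 2 * 3⁻¹ * σ;
        -(3⁻¹ * σ), 2 * 3⁻¹ * σ ^ 2, -(2 * 3⁻¹)] := by
    apply PhM_of
    · simp
      grind
    · ext i j
      fin_cases i <;> fin_cases j <;> simp <;> grind
  rw [e1]
  ext i j
  fin_cases i <;> fin_cases j <;>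
    simp [Pm, Q0, Matrix.mul_apply, Fin.sum_univ_three] <;> grind

/-- the image of `b` -/
theorem img_b {σ u : F} (h2 : (2 : F) ≠ 0) (h3 : (3 : F) ≠ 0) (hσ : σ ^ 2 + σ + 1 = 0)
    (hu : u * (σ ^ 2 - σ) = 1) :
    dg 1 (-1) (-1) * Pm σ u = Pm σ u * PhM !![-1, 2; 1, 1] := by
  have e1 : PhM !![(-1 : F), 2; 1, 1] =
      !![-3⁻¹, 2 * 3⁻¹, -(2 * 3⁻¹); 2 * 3⁻¹, -3⁻¹, -(2 * 3⁻¹);
        -(2 * 3⁻¹), -(2 * 3⁻¹), -3⁻¹] := by
    apply PhM_of
    · simp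
      grind
    · ext i j
      fin_cases i <;> fin_cases j <;> simp <;> grind
  rw [e1]
  ext i j
  fin_cases i <;> fin_cases j <;>
    simp [Pm, dg, Matrix.mul_apply, Fin.sum_univ_three] <;> grind

/-- the image of `c`, inner -/
theorem img_ci {σ u : F} (h2 : (2 : F) ≠ 0) (h3 : (3 : F) ≠ 0) (hσ : σ ^ 2 + σ + 1 = 0)
    (hu : u * (σ ^ 2 - σ) = 1) :
    hQ 1 1 * Pm σ u = Pm σ u * PhM !![-1, -4 * σ ^ 2; -2 * σ, 1] := by
  have h9 : (9 : F) ≠ 0 := by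
    have : (9 : F) = 3 * 3 := by norm_num
    rw [this]
    exact mul_ne_zero h3 h3
  have e1 : PhM !![(-1 : F), -4 * σ ^ 2; -2 * σ, 1] =
      !![-9⁻¹, -(4 * 9⁻¹ * σ ^ 2), -(8 * 9⁻¹ * σ); -(4 * 9⁻¹ * σ), -(7 * 9⁻¹), 4 * 9⁻¹ * σ ^ 2;
        -(8 * 9⁻¹ * σ ^ 2), 4 * 9⁻¹ * σ, -9⁻¹] := by
    apply PhM_of
    · simp
      grind
    · ext i j
      fin_cases i <;> fin_cases j <;> simp <;> grind
  have e2 : hQ (1 : F) 1 = !![-3⁻¹, 2 * 3⁻¹, -(2 * 3⁻¹); 2 * 3⁻¹, -3⁻¹, -(2 * 3⁻¹);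
        -(2 * 3⁻¹), -(2 * 3⁻¹), -3⁻¹] := by
    have e3 : (2 * (1 : F) + 1 ^ 2)⁻¹ = 3⁻¹ := by norm_num
    unfold hQ
    rw [e3]
    ext i j
    fin_cases i <;> fin_cases j <;> simp <;> grind
  rw [e1, e2]
  ext i j
  fin_cases i <;> fin_cases j <;>
    simp [Pm, Matrix.mul_apply, Fin.sum_univ_three] <;> grind

/-- the image of `c`, outer -/
theorem img_co {σ u : F} (h2 : (2 : F) ≠ 0) (h3 : (3 : F) ≠ 0) (hσ : σ ^ 2 + σ + 1 = 0)
    (hu : u * (σ ^ 2 - σ) = 1) :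
    (Pm σ u).transpose * ((hQ 1 2).transpose * Q0 F) * Pm σ u =
      Q0 F * PhM !![1, 4; 2, -1] := by
  have h9 : (9 : F) ≠ 0 := by
    have : (9 : F) = 3 * 3 := by norm_num
    rw [this]
    exact mul_ne_zero h3 h3
  have e1 : PhM !![(1 : F), 4; 2, -1] =
      !![-9⁻¹, -(4 * 9⁻¹), -(8 * 9⁻¹); -(4 * 9⁻¹), -(7 * 9⁻¹), 4 * 9⁻¹;
        -(8 * 9⁻¹), 4 * 9⁻¹, -9⁻¹] := by
    apply PhM_of
    · simp
      grind
    · ext i j
      fin_cases i <;> fin_cases j <;> simp <;> grind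
  have e2 : hQ (1 : F) 2 = !![-(2 * 3⁻¹), 2 * 3⁻¹, -3⁻¹; 2 * 3⁻¹, 3⁻¹, -(2 * 3⁻¹);
        -3⁻¹, -(2 * 3⁻¹), -(2 * 3⁻¹)] := by
    have h6 : (6 : F) ≠ 0 := by
      have : (6 : F) = 2 * 3 := by norm_num
      rw [this]
      exact mul_ne_zero h2 h3
    have e3 : (2 * (1 : F) + 2 ^ 2)⁻¹ = 6⁻¹ := by norm_num
    unfold hQ
    rw [e3]
    ext i j
    fin_cases i <;> fin_cases j <;> simp <;> grind
  rw [e1, e2]
  ext i j
  fin_cases i <;> fin_cases j <;>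
    simp [Pm, Q0, Matrix.mul_apply, Fin.sum_univ_three] <;> grind

/-- the image of `d * e` -/
theorem img_de {σ u : F} (hσ : σ ^ 2 + σ + 1 = 0) :
    dg σ⁻¹ 1 σ * Pm σ u = Pm σ u * (σ ^ 2 • Cm F) := by
  have h0 : σ ≠ 0 := by
    rintro rfl
    simp at hσ
  have h1 : σ⁻¹ = σ ^ 2 := by
    field_simp
    grind
  rw [h1]
  ext i j
  fin_cases i <;> fin_cases j <;>
    simp [Pm, dg, Cm, Matrix.mul_apply, Fin.sum_univ_three] <;> grind

/-- no power of order at most five is scalar -/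
theorem pow_ne {K : Type*} [Field K] (h2 : (2 : K) ≠ 0) (h3 : (3 : K) ≠ 0) (h11 : (11 : K) ≠ 0)
    (h : M2 K) (hh : h * h = (6 : K) • h - (27 : K) • 1) (h01 : h 0 1 ≠ 0) (k : ℕ) (c : K)
    (hk : 1 ≤ k) (hk' : k ≤ 5) : h ^ k ≠ !![c, 0; 0, c] := by
  have e2 : h ^ 2 = (6 : K) • h - (27 : K) • 1 := by rw [pow_two, hh]
  have e3 : h ^ 3 = (9 : K) • h - (162 : K) • 1 := by
    rw [pow_succ, e2, sub_mul, smul_mul_assoc, hh, smul_mul_assoc, one_mul]
    module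
  have e4 : h ^ 4 = (-108 : K) • h - (243 : K) • 1 := by
    rw [pow_succ, e3, sub_mul, smul_mul_assoc, hh, smul_mul_assoc, one_mul]
    module
  have e5 : h ^ 5 = (-891 : K) • h + (2916 : K) • 1 := by
    rw [pow_succ, e4, sub_mul, smul_mul_assoc, hh, smul_mul_assoc, one_mul]
    module
  intro hc
  have hc1 := congrFun (congrFun hc 0) 1
  interval_cases k
  · rw [pow_one] at hc1
    simp at hc1
    exact h01 hc1
  · rw [e2] at hc1
    simp at hc1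
    rcases hc1 with hc1 | hc1
    · have : (6 : K) = 2 * 3 := by norm_num
      rw [this] at hc1
      exact (mul_ne_zero h2 h3) hc1
    · exact h01 hc1
  · rw [e3] at hc1
    simp at hc1
    rcases hc1 with hc1 | hc1
    · have : (9 : K) = 3 * 3 := by norm_num
      rw [this] at hc1
      exact (mul_ne_zero h3 h3) hc1
    · exact h01 hc1
  · rw [e4] at hc1
    simp at hc1
    rcases hc1 with hc1 | hc1
    · have : (108 : K) = 2 * 2 * (3 * 3 * 3) := by norm_num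
      rw [this] at hc1
      exact (mul_ne_zero (mul_ne_zero h2 h2) (mul_ne_zero (mul_ne_zero h3 h3) h3)) hc1
    · exact h01 hc1
  · rw [e5] at hc1
    simp at hc1
    rcases hc1 with hc1 | hc1
    · have : (891 : K) = 11 * (3 * 3 * (3 * 3)) := by norm_num
      rw [this] at hc1
      exact (mul_ne_zero h11 (mul_ne_zero (mul_ne_zero h3 h3) (mul_ne_zero h3 h3))) hc1
    · exact h01 hc1

end

/-- the numerical conditions of ELM, `c` inner -/
theorem cond_i {K : Type*} [Field K] {r : K} (h2 : (2 : K) ≠ 0) (h3 : (3 : K) ≠ 0)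
    (h11 : (11 : K) ≠ 0) (hr : r ^ 2 + r + 1 = 0) :
    ((!![-1, 2; 1, 1] * !![-1, -4 * r ^ 2; -2 * r, 1]) * !![-2, -2 * r; -r ^ 2, 2] -
      !![-2, -2 * r; -r ^ 2, 2] * (!![-1, 2; 1, 1] * !![-1, -4 * r ^ 2; -2 * r, 1]) : M2 K).det ≠ 0 ∧
    (!![-1, 2; 1, 1] * !![-1, -4 * r ^ 2; -2 * r, 1] : M2 K).trace ≠ 0 ∧
    (!![-2, -2 * r; -r ^ 2, 2] * (!![-1, 2; 1, 1] * !![-1, -4 * r ^ 2; -2 * r, 1]) : M2 K) ≠
      adjugate (!![-1, 2; 1, 1] * !![-1, -4 * r ^ 2; -2 * r, 1]) * !![-2, -2 * r; -r ^ 2, 2] ∧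
    ∀ (k : ℕ) (c : K), 1 ≤ k → k ≤ 5 →
      (!![-1, 2; 1, 1] * !![-1, -4 * r ^ 2; -2 * r, 1] : M2 K) ^ k ≠ !![c, 0; 0, c] := by
  have hh : (!![-1, 2; 1, 1] * !![-1, -4 * r ^ 2; -2 * r, 1] : M2 K) =
      !![1 - 4 * r, 4 * r ^ 2 + 2; -1 - 2 * r, 1 - 4 * r ^ 2] := by
    ext i j
    fin_cases i <;> fin_cases j <;> simp [Matrix.mul_apply, Fin.sum_univ_two] <;> ring
  rw [hh]
  refine ⟨?_, ?_, ?_, ?_⟩
  · have h1 : (!![1 - 4 * r, 4 * r ^ 2 + 2; -1 - 2 * r, 1 - 4 * r ^ 2] *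
        !![-2, -2 * r; -r ^ 2, 2] - !![-2, -2 * r; -r ^ 2, 2] *
        !![1 - 4 * r, 4 * r ^ 2 + 2; -1 - 2 * r, 1 - 4 * r ^ 2] : M2 K) =
        !![6, 24 * r ^ 2; 12 * r, -6] := by
      ext i j
      fin_cases i <;> fin_cases j <;> simp [Matrix.mul_apply, Fin.sum_univ_two] <;> grind
    rw [h1, Matrix.det_fin_two_of]
    have h4 : (6 : K) * -6 - 24 * r ^ 2 * (12 * r) = -(2 * 2 * (3 * 3 * (3 * 3))) := by grind
    rw [h4]
    exact neg_ne_zero.2 (mul_ne_zero (mul_ne_zero h2 h2)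
      (mul_ne_zero (mul_ne_zero h3 h3) (mul_ne_zero h3 h3)))
  · have h1 : (!![1 - 4 * r, 4 * r ^ 2 + 2; -1 - 2 * r, 1 - 4 * r ^ 2] : M2 K).trace = 2 * 3 := by
      simp [Matrix.trace_fin_two]
      grind
    rw [h1]
    exact mul_ne_zero h2 h3
  · intro h
    have h1 := congrFun (congrFun h 0) 0
    simp [Matrix.mul_apply, Fin.sum_univ_two, Matrix.adjugate_fin_two] at h1
    have h4 : (2 * 3 * (2 * r + 1) : K) = 0 := by grind
    have h5 : (2 * r + 1 : K) ≠ 0 := by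
      intro h6
      apply h3
      grind
    exact (mul_ne_zero (mul_ne_zero h2 h3) h5) h4
  · intro k c hk hk'
    refine pow_ne h2 h3 h11 _ ?_ ?_ k c hk hk'
    · ext i j
      fin_cases i <;> fin_cases j <;> simp [Matrix.mul_apply, Fin.sum_univ_two] <;> grind
    · simp
      intro h6
      have h7 : (2 : K) * (2 * r + 1) = 0 := by grind
      have h8 := (mul_eq_zero.1 h7).resolve_left h2
      apply h3
      grind

/-- the numerical conditions of ELM, `c` outer -/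
theorem cond_o {K : Type*} [Field K] {r : K} (h2 : (2 : K) ≠ 0) (h3 : (3 : K) ≠ 0)
    (h11 : (11 : K) ≠ 0) (hr : r ^ 2 + r + 1 = 0) :
    ((!![-1, 2; 1, 1] * !![1, 4; 2, -1]) * !![-2, -2 * r; -r ^ 2, 2] -
      !![-2, -2 * r; -r ^ 2, 2] * (!![-1, 2; 1, 1] * !![1, 4; 2, -1]) : M2 K).det ≠ 0 ∧
    (!![-1, 2; 1, 1] * !![1, 4; 2, -1] : M2 K).trace ≠ 0 ∧
    (!![-2, -2 * r; -r ^ 2, 2] * (!![-1, 2; 1, 1] * !![1, 4; 2, -1]) : M2 K) ≠
      adjugate (!![-1, 2; 1, 1] * !![1, 4; 2, -1]) * !![-2, -2 * r; -r ^ 2, 2] ∧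
    ∀ (k : ℕ) (c : K), 1 ≤ k → k ≤ 5 →
      (!![-1, 2; 1, 1] * !![1, 4; 2, -1] : M2 K) ^ k ≠ !![c, 0; 0, c] := by
  have hh : (!![-1, 2; 1, 1] * !![1, 4; 2, -1] : M2 K) = !![3, -6; 3, 3] := by
    ext i j
    fin_cases i <;> fin_cases j <;> simp [Matrix.mul_apply, Fin.sum_univ_two] <;> ring
  rw [hh]
  refine ⟨?_, ?_, ?_, ?_⟩
  · have h1 : (!![3, -6; 3, 3] * !![-2, -2 * r; -r ^ 2, 2] - !![-2, -2 * r; -r ^ 2, 2] *
        !![3, -6; 3, 3] : M2 K) = !![-6, -24; -12, 6] := by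
      ext i j
      fin_cases i <;> fin_cases j <;> simp [Matrix.mul_apply, Fin.sum_univ_two] <;> grind
    rw [h1, Matrix.det_fin_two_of]
    have h4 : (-6 : K) * 6 - -24 * -12 = -(2 * 2 * (3 * 3 * (3 * 3))) := by norm_num
    rw [h4]
    exact neg_ne_zero.2 (mul_ne_zero (mul_ne_zero h2 h2)
      (mul_ne_zero (mul_ne_zero h3 h3) (mul_ne_zero h3 h3)))
  · have h1 : (!![3, -6; 3, 3] : M2 K).trace = 2 * 3 := by
      simp [Matrix.trace_fin_two]
      norm_num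
    rw [h1]
    exact mul_ne_zero h2 h3
  · intro h
    have h1 := congrFun (congrFun h 0) 0
    simp [Matrix.mul_apply, Fin.sum_univ_two, Matrix.adjugate_fin_two] at h1
    have h4 : (2 * 3 * (2 * r + 1) : K) = 0 := by grind
    have h5 : (2 * r + 1 : K) ≠ 0 := by
      intro h6
      apply h3
      grind
    exact (mul_ne_zero (mul_ne_zero h2 h3) h5) h4
  · intro k c hk hk'
    refine pow_ne h2 h3 h11 _ ?_ ?_ k c hk hk'
    · ext i j
      fin_cases i <;> fin_cases j <;> simp [Matrix.mul_apply, Fin.sum_univ_two] <;> norm_num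
    · simp
      have h6 : (6 : K) = 2 * 3 := by norm_num
      rw [h6]
      exact mul_ne_zero h2 h3

theorem e12_thm (hELM : ELMStmt) (hPAR : PARStmt) : E12Stmt := by
  intro F _ _ hF a b c d e σ hσ ha hb hd he hc
  obtain ⟨p, hp, hch, hp6, h2, h3, -, h11, w0, hw0⟩ := hPAR F hF
  have : Fact p.Prime := ⟨hp⟩
  have := hch
  set φ : ZMod p →+* F := ZMod.castHom (dvd_refl p) F with hφ
  have hinj : Function.Injective φ := φ.injective
  have hne : ∀ n : ℕ, ((n : F)) ≠ 0 → ((n : ZMod p)) ≠ 0 := by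
    intro n hn h0
    apply hn
    have := congrArg φ h0
    rwa [map_natCast, map_zero] at this
  have k2 : (2 : ZMod p) ≠ 0 := by exact_mod_cast hne 2 (by exact_mod_cast h2)
  have k3 : (3 : ZMod p) ≠ 0 := by exact_mod_cast hne 3 (by exact_mod_cast h3)
  have k11 : (11 : ZMod p) ≠ 0 := by exact_mod_cast hne 11 (by exact_mod_cast h11)
  -- the root in the prime field
  obtain ⟨r, hr, hrσ⟩ : ∃ r : ZMod p, r ^ 2 + r + 1 = 0 ∧ φ r = σ := by
    have e1 : (φ w0) ^ 2 + φ w0 + 1 = 0 := by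
      have := congrArg φ hw0
      simpa using this
    have e2 : (σ - φ w0) * (σ - (φ w0) ^ 2) = 0 := by
      grind
    rcases mul_eq_zero.1 e2 with h | h
    · exact ⟨w0, hw0, (sub_eq_zero.1 h).symm⟩
    · refine ⟨w0 ^ 2, by grind, ?_⟩
      rw [map_pow]
      exact (sub_eq_zero.1 h).symm
  -- the base change
  have hκ : σ ^ 2 - σ ≠ 0 := by
    intro h
    apply h3
    grind
  set u : F := (σ ^ 2 - σ)⁻¹ with hu0
  have hu : u * (σ ^ 2 - σ) = 1 := inv_mul_cancel₀ hκ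
  set P : SL3 F := ⟨Pm σ u, Pm_det hσ hu⟩ with hP
  have hPc : (P : M3 F) = Pm σ u := rfl
  apply mem_of_cj P
  have iσ : σ ≠ 0 := by
    rintro rfl
    simp at hσ
  -- images
  have je : Is (cj P e) true (Q0 F) := cj_outer_of he (by rw [hPc]; exact Pm_tr hσ hu)
  have ja : Is (cj P a) true (Q0 F * PhM !![-2, -2 * σ; -σ ^ 2, 2]) :=
    cj_outer_of ha (by rw [hPc]; exact img_a h2 h3 hσ hu)
  have jb : Is (cj P b) false (PhM !![-1, 2; 1, 1]) :=
    cj_inner_of hb (by rw [hPc]; exact img_b h2 h3 hσ hu)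
  have jd : cj P d * cj P d = 1 := by
    rw [← cj_mul, (outer_sq_iff hd).2 (dg_transpose _ _ _), cj_one]
  have jde : Is (cj P d * cj P e) false (σ ^ 2 • Cm F) := by
    rw [← cj_mul]
    have h1 : Is (d * e) false (dg σ⁻¹ 1 σ) := by
      have h4 := hd.mul_outer' he (A' := dg σ⁻¹ 1 σ) (by
        rw [dg_mul, mul_inv_cancel₀ iσ, one_mul, inv_mul_cancel₀ iσ, dg_one])
      rw [dg_transpose, dg_mul] at h4
      simpa using h4
    exact cj_inner_of h1 (by rw [hPc]; exact img_de hσ)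
  have f2 : φ 2 = 2 := map_ofNat φ 2
  have f4 : φ 4 = 4 := map_ofNat φ 4
  have ga : (!![-2, -2 * r; -r ^ 2, 2] : M2 (ZMod p)).map φ = !![-2, -2 * σ; -σ ^ 2, 2] := by
    ext i j
    fin_cases i <;> fin_cases j <;> simp [hrσ, f2]
  have gb : (!![-1, 2; 1, 1] : M2 (ZMod p)).map φ = !![-1, 2; 1, 1] := by
    ext i j
    fin_cases i <;> fin_cases j <;> simp [f2]
  have da : (!![-2, -2 * r; -r ^ 2, 2] : M2 (ZMod p)).det ≠ 0 := by
    rw [Matrix.det_fin_two_of]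
    have : (-2 : ZMod p) * 2 - -2 * r * -r ^ 2 = -(2 * 3) := by grind
    rw [this]
    exact neg_ne_zero.2 (mul_ne_zero k2 k3)
  have db : (!![-1, 2; 1, 1] : M2 (ZMod p)).det ≠ 0 := by
    rw [Matrix.det_fin_two_of]
    have : (-1 : ZMod p) * 1 - 2 * 1 = -3 := by norm_num
    rw [this]
    exact neg_ne_zero.2 k3
  rcases hc with hc | hc
  · have jc : Is (cj P c) false (PhM !![-1, -4 * σ ^ 2; -2 * σ, 1]) :=
      cj_inner_of hc (by rw [hPc]; exact img_ci h2 h3 hσ hu)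
    have gc : (!![-1, -4 * r ^ 2; -2 * r, 1] : M2 (ZMod p)).map φ =
        !![-1, -4 * σ ^ 2; -2 * σ, 1] := by
      ext i j
      fin_cases i <;> fin_cases j <;> simp [hrσ, f2, f4]
    obtain ⟨c1, c2, c3, c4⟩ := cond_i k2 k3 k11 hr
    refine hELM p F hp6 _ _ _ da db ?_ c1 c2 c3 c4 _ _ _ _ _ ?_ ?_ ?_ jd je ⟨σ ^ 2, by grind, jde⟩
    · rw [Matrix.det_fin_two_of]
      have : (-1 : ZMod p) * 1 - -4 * r ^ 2 * (-2 * r) = -(3 * 3) := by grind
      rw [this]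
      exact neg_ne_zero.2 (mul_ne_zero k3 k3)
    · right
      rw [ga]
      exact ja
    · left
      rw [gb]
      exact jb
    · left
      rw [gc]
      exact jc
  · have jc : Is (cj P c) true (Q0 F * PhM !![1, 4; 2, -1]) :=
      cj_outer_of hc (by rw [hPc]; exact img_co h2 h3 hσ hu)
    have gc : (!![1, 4; 2, -1] : M2 (ZMod p)).map φ = !![1, 4; 2, -1] := by
      ext i j
      fin_cases i <;> fin_cases j <;> simp [f2, f4]
    obtain ⟨c1, c2, c3, c4⟩ := cond_o k2 k3 k11 hr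
    refine hELM p F hp6 _ _ _ da db ?_ c1 c2 c3 c4 _ _ _ _ _ ?_ ?_ ?_ jd je ⟨σ ^ 2, by grind, jde⟩
    · rw [Matrix.det_fin_two_of]
      have : (1 : ZMod p) * -1 - 4 * 2 = -(3 * 3) := by norm_num
      rw [this]
      exact neg_ne_zero.2 (mul_ne_zero k3 k3)
    · right
      rw [ga]
      exact ja
    · left
      rw [gb]
      exact jb
    · right
      rw [gc]
      exact jc

end Pool.Agent.H70.SCG2
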